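import Pool.Agent.H15.Defect.DefNat
import Pool.Agent.H15.CX.Cover

/-!
# Additivity of the defect for disjoint unions
-/

open TensorProduct Module PowerSeries

namespace Pool.Agent.H62.TL

open Pool.Agent.H12.Defect Pool.Agent.H15.Defect Pool.Agent.H15.CX

universe u

section add

variable {k : Type u} [Field k] {A A' : Type u} [CommRing A] [Algebra k A] [CommRing A']
  [Algebra k A']

/-- A smoothable scheme containing a disjoint union splits. -/
theorem dle_split {N : ℕ} (h : Dle k (A × A') N) :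
    ∃ N₁ N₂, Dle k A N₁ ∧ Dle k A' N₂ ∧ N₁ + N₂ ≤ N := by
  obtain ⟨B, i1, i2, hB, ⟨π, hπ⟩, hfr⟩ := h
  have hf : Module.Finite k B := IsSmoothable.finite hB
  have hart : IsArtinianRing B := IsArtinianRing.of_finite k B
  have hnoe : IsNoetherianRing B := IsNoetherianRing.of_finite k B
  let π₁ : B →ₐ[k] A := (AlgHom.fst k A A').comp π
  let π₂ : B →ₐ[k] A' := (AlgHom.snd k A A').comp π
  have hπ₁ : ∀ b, π₁ b = (π b).1 := fun _ => rfl
  have hπ₂ : ∀ b, π₂ b = (π b).2 := fun _ => rfl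
  let J : Ideal B := RingHom.ker π₁
  obtain ⟨M, hM⟩ := IsArtinian.monotone_stabilizes
    (⟨fun n => OrderDual.toDual (J ^ n), fun a b hab => Ideal.pow_le_pow_right hab⟩ :
      ℕ →o (Submodule B B)ᵒᵈ)
  have hst : ∀ m, M ≤ m → J ^ M = J ^ m := fun m hm => hM m hm
  have hid : IsIdempotentElem (J ^ (M + 1)) := by
    show J ^ (M + 1) * J ^ (M + 1) = J ^ (M + 1)
    rw [← pow_add, ← hst (M + 1) (by omega), ← hst (M + 1 + (M + 1)) (by omega)]
  obtain ⟨e, he, hJ⟩ := (Ideal.isIdempotentElem_iff_of_fg (J ^ (M + 1))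
    (IsNoetherian.noetherian _)).mp hid
  have heJ : e ∈ J := by
    have h1 : e ∈ J ^ (M + 1) := by
      rw [hJ]
      exact Ideal.mem_span_singleton_self e
    exact Ideal.pow_le_self (by omega) h1
  have he1 : π₁ e = 0 := heJ
  obtain ⟨b, hb⟩ := hπ (0, 1)
  have hbJ : b ∈ J := by
    show π₁ b = 0
    rw [hπ₁, hb]
  have hb2 : π₂ b = 1 := by rw [hπ₂, hb]
  have hbM : b ^ (M + 1) ∈ J ^ (M + 1) := Ideal.pow_mem_pow hbJ _
  rw [hJ, Ideal.mem_span_singleton'] at hbM
  obtain ⟨c, hc⟩ := hbM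
  have he2 : π₂ e = 1 := by
    have h1 : π₂ c * π₂ e = 1 := by
      rw [← map_mul, hc, map_pow, hb2, one_pow]
    have h2 : π₂ e * π₂ e = π₂ e := by rw [← map_mul, he.eq]
    calc π₂ e = (π₂ c * π₂ e) * π₂ e := by rw [h1, one_mul]
      _ = π₂ c * π₂ e := by rw [mul_assoc, h2]
      _ = 1 := h1
  have h1 : e + (1 - e) = 1 := by ring
  have h2 : e * (1 - e) = 0 := by rw [mul_sub, mul_one, he.eq, sub_self]
  let E := AlgEquiv.prodQuotientOfIsIdempotentElem k he he.one_sub h1 h2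
  have hBE := IsSmoothable.of_equiv E hB
  have hfr' : finrank k B = finrank k (B ⧸ Ideal.span {e}) + finrank k (B ⧸ Ideal.span {1 - e}) := by
    rw [LinearEquiv.finrank_eq E.toLinearEquiv, Module.finrank_prod]
  refine ⟨finrank k (B ⧸ Ideal.span {e}), finrank k (B ⧸ Ideal.span {1 - e}), ?_, ?_, by omega⟩
  · have hle : Ideal.span {e} ≤ RingHom.ker π₁ := by
      rw [Ideal.span_singleton_le_iff_mem]
      exact heJ
    refine (IsSmoothable.dle (isSmoothable_fst hBE)).of_surjective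
      (Ideal.Quotient.liftₐ _ π₁ hle) ?_
    intro a
    obtain ⟨x, hx⟩ := hπ (a, 0)
    refine ⟨Ideal.Quotient.mk _ x, ?_⟩
    refine (Ideal.Quotient.liftₐ_apply _ _ _ _).trans ?_
    show π₁ x = a
    rw [hπ₁, hx]
  · have hle : Ideal.span {1 - e} ≤ RingHom.ker π₂ := by
      rw [Ideal.span_singleton_le_iff_mem]
      show π₂ (1 - e) = 0
      rw [map_sub, map_one, he2, sub_self]
    refine (IsSmoothable.dle (isSmoothable_snd hBE)).of_surjective
      (Ideal.Quotient.liftₐ _ π₂ hle) ?_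
    intro a
    obtain ⟨x, hx⟩ := hπ (0, a)
    refine ⟨Ideal.Quotient.mk _ x, ?_⟩
    refine (Ideal.Quotient.liftₐ_apply _ _ _ _).trans ?_
    show π₂ x = a
    rw [hπ₂, hx]

theorem defect_le_of_dle {N C : ℕ} (h : Dle k A N) (hN : N ≤ finrank k A + C) :
    defect k A ≤ (C : ℕ∞) := by
  obtain ⟨h1, -, h3⟩ := defect_eq h
  rw [← ENat.coe_toNat h1]
  exact_mod_cast (by omega : (defect k A).toNat ≤ C)

theorem dle_of_defect_le {C : ℕ} (h : defect k A ≤ (C : ℕ∞)) : Dle k A (finrank k A + C) := by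
  have h1 : defect k A < ((C + 1 : ℕ) : ℕ∞) := lt_of_le_of_lt h (by exact_mod_cast Nat.lt_succ_self C)
  rw [defect, iInf_lt_iff] at h1
  obtain ⟨δ, hδ⟩ := h1
  rw [iInf_lt_iff] at hδ
  obtain ⟨hm, hlt⟩ := hδ
  refine (finrank_add_le_of_mem hm).mono ?_
  have : δ < C + 1 := by exact_mod_cast hlt
  omega

/-- The defect is additive for disjoint unions. -/
theorem defect_prod [Module.Finite k A] [Module.Finite k A'] :
    defect k (A × A') = defect k A + defect k A' := by
  apply le_antisymm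
  · rcases eq_or_ne (defect k A) ⊤ with h | h
    · rw [h, top_add]
      exact le_top
    rcases eq_or_ne (defect k A') ⊤ with h' | h'
    · rw [h', add_top]
      exact le_top
    obtain ⟨n, hn⟩ := ENat.ne_top_iff_exists.mp h
    obtain ⟨n', hn'⟩ := ENat.ne_top_iff_exists.mp h'
    have h1 := (dle_of_defect_le hn.symm.le).prod (dle_of_defect_le hn'.symm.le)
    rw [← hn, ← hn', ← Nat.cast_add]
    refine defect_le_of_dle h1 ?_
    rw [Module.finrank_prod]
    omega
  · rcases eq_or_ne (defect k (A × A')) ⊤ with h | h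
    · rw [h]
      exact le_top
    obtain ⟨n, hn⟩ := ENat.ne_top_iff_exists.mp h
    obtain ⟨N₁, N₂, h1, h2, h3⟩ := dle_split (dle_of_defect_le hn.symm.le)
    rw [← hn]
    obtain ⟨h4, -, h5⟩ := defect_eq h1
    obtain ⟨h6, -, h7⟩ := defect_eq h2
    rw [Module.finrank_prod] at h3
    rw [← ENat.coe_toNat h4, ← ENat.coe_toNat h6]
    exact_mod_cast (by omega : (defect k A).toNat + (defect k A').toNat ≤ n)

theorem defect_eq_zero_of_smoothable (h : IsSmoothable k A) : defect k A = 0 := by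
  have h1 := defect_le_of_dle (C := 0) (IsSmoothable.dle h) (by omega)
  exact le_antisymm h1 bot_le

end add

end Pool.Agent.H62.TL
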