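import Pool.Agent.H62.TL.Lattice

/-!
# Cutting a socle element
-/

open TensorProduct Module PowerSeries

namespace Pool.Agent.H62.TL

open Pool.Agent.H12.Defect Pool.Agent.H15.Defect Pool.Agent.H15.CX Pool.Agent.H15.DB

universe u

section tm

variable {k : Type u} [Field k] {𝒜 : Type u} [CommRing 𝒜] [Algebra (PowerSeries k) 𝒜]

/-- pure tensors in the ramified base change -/
noncomputable def tm (r : PowerSeries k) (a : 𝒜) : Rme k 2 𝒜 :=
  ((show Rae k 2 from r) ⊗ₜ[PowerSeries k] a : Rae k 2 ⊗[PowerSeries k] 𝒜)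

theorem tm_mul (r r' : PowerSeries k) (a a' : 𝒜) : tm r a * tm r' a' = tm (r * r') (a * a') :=
  Algebra.TensorProduct.tmul_mul_tmul _ _ _ _

theorem tm_add (r : PowerSeries k) (a a' : 𝒜) : tm r (a + a') = tm r a + tm r a' :=
  TensorProduct.tmul_add _ _ _

theorem smul_tm (s r : PowerSeries k) (a : 𝒜) : s • tm r a = tm (s * r) a := rfl

theorem tm_smul (s r : PowerSeries k) (a : 𝒜) :
    tm r (s • a) = tm (expand 3 (by norm_num) s * r) a := by
  have h1 : ((show Rae k 2 from r) ⊗ₜ[PowerSeries k] (s • a) : Rae k 2 ⊗[PowerSeries k] 𝒜) =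
      (s • (show Rae k 2 from r)) ⊗ₜ[PowerSeries k] a := (TensorProduct.smul_tmul _ _ _).symm
  exact h1

theorem tm_induction {motive : Rme k 2 𝒜 → Prop} (h0 : motive 0)
    (h1 : ∀ r a, motive (tm r a)) (h2 : ∀ x y, motive x → motive y → motive (x + y)) (x) :
    motive x := TensorProduct.induction_on x h0 h1 h2

end tm

section red

variable {k : Type u} [Field k] {T 𝒜 : Type u} [CommRing T] [Algebra k T] [CommRing 𝒜]
  [Algebra (PowerSeries k) 𝒜] {π : 𝒜 →+* T}

/-- The reduction of the ramified base change modulo `X`. -/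
noncomputable def redC (h : IsModel k π) : Rme k 2 𝒜 →+* T :=
  letI : Algebra (PowerSeries k) T := constAlg k _
  letI f : Rae k 2 →ₐ[PowerSeries k] T :=
    { ((algebraMap k T).comp (constantCoeff (R := k)) : PowerSeries k →+* T) with
      commutes' := by
        intro r
        show algebraMap k T (constantCoeff (expand 3 _ r)) = algebraMap k T (constantCoeff r)
        rw [PowerSeries.constantCoeff_expand] }
  letI g : 𝒜 →ₐ[PowerSeries k] T :=
    { π with
      commutes' := by
        intro r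
        have := h.smul r 1
        rwa [Algebra.smul_def, mul_one, map_one, ← Algebra.algebraMap_eq_smul_one] at this }
  (Algebra.TensorProduct.productMap f g :
    Rae k 2 ⊗[PowerSeries k] 𝒜 →ₐ[PowerSeries k] T).toRingHom

theorem redC_tm (h : IsModel k π) (r : PowerSeries k) (a : 𝒜) :
    redC h (tm r a) = constantCoeff r • π a := by
  rw [Algebra.smul_def]
  rfl

theorem redC_smul (h : IsModel k π) (r : PowerSeries k) (x : Rme k 2 𝒜) :
    redC h (r • x) = constantCoeff r • redC h x := by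
  induction x using tm_induction with
  | h0 => rw [smul_zero, map_zero, smul_zero]
  | h1 s a => rw [smul_tm, redC_tm, redC_tm, map_mul, mul_smul]
  | h2 x y hx hy => rw [smul_add, map_add, hx, hy, map_add, smul_add]

theorem redC_surjective (h : IsModel k π) : Function.Surjective (redC h) := by
  intro t
  obtain ⟨a, rfl⟩ := h.surj t
  exact ⟨tm 1 a, by rw [redC_tm, map_one, one_smul]⟩

/-- multiplication by a lift of a socle element -/
theorem exists_mul_socle (h : IsModel k π) (τ : T →ₐ[k] k) {z : T}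
    (hz : ∀ t, t * z = τ t • z) {z₀ : 𝒜} (hz₀ : π z₀ = z) (x : Rme k 2 𝒜) :
    ∃ (r : PowerSeries k) (c : Rme k 2 𝒜),
      x * tm 1 z₀ = r • tm 1 z₀ + (X : PowerSeries k) ^ 3 • c ∧
        constantCoeff r = τ (redC h x) := by
  induction x using tm_induction with
  | h0 => exact ⟨0, 0, by rw [zero_mul, zero_smul, smul_zero, add_zero], by simp⟩
  | h1 s a =>
    have h1 : a * z₀ - (C (τ (π a)) : PowerSeries k) • z₀ ∈ RingHom.ker π := by
      rw [RingHom.mem_ker, map_sub, map_mul, h.smul, hz₀, hz, constantCoeff_C, sub_self]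
    rw [h.ker, Ideal.mem_span_singleton'] at h1
    obtain ⟨c, hc⟩ := h1
    have h2 : a * z₀ = (C (τ (π a)) : PowerSeries k) • z₀ + (X : PowerSeries k) • c := by
      rw [Algebra.smul_def X c, mul_comm _ c, hc]
      ring
    refine ⟨s * C (τ (π a)), tm s c, ?_, ?_⟩
    · rw [tm_mul, mul_one, h2, tm_add, tm_smul, tm_smul, smul_tm, smul_tm, expand_X, mul_one,
        expand_C, mul_comm s]
    · rw [map_mul, constantCoeff_C, redC_tm, map_smul, smul_eq_mul]
  | h2 x y hx hy =>
    obtain ⟨r, c, h1, h2⟩ := hx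
    obtain ⟨r', c', h1', h2'⟩ := hy
    refine ⟨r + r', c + c', ?_, ?_⟩
    · rw [add_mul, h1, h1', add_smul, smul_add]
      abel
    · rw [map_add, h2, h2', map_add, map_add]

end red

section cut

variable {k : Type u} [Field k]

theorem cut_aux {R 𝒜 𝒦 : Type*} [CommRing R] [CommRing 𝒜] [Algebra R 𝒜] [CommRing 𝒦]
    [Algebra R 𝒦] (ι : 𝒜 →ₐ[R] 𝒦) (w : 𝒦) (a a' c c' d : 𝒜) (r r' ρ ρ' x : R)
    (h1 : ι a * w = ρ • w + x ^ 2 • ι c) (h2 : ι a' * w = ρ' • w + x ^ 2 • ι c')
    (h3 : w * w = x • ι d) :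
    (ι a + r • w) * (ι a' + r' • w) =
      ι (a * a' + x • (x • (r' • c + r • c') + (r * r') • d)) + (r' * ρ + r * ρ') • w := by
  simp only [Algebra.smul_def, map_pow] at *
  simp only [map_add, map_mul, AlgHom.commutes]
  linear_combination (algebraMap R 𝒦 r') * h1 + (algebraMap R 𝒦 r) * h2 +
    (algebraMap R 𝒦 r) * (algebraMap R 𝒦 r') * h3

/-- Let `T` be smoothable with a socle element `z`. Then the idealization of `T / (z)` by a copy of
the residue field is smoothable. -/
theorem isSmoothable_cut {T : Type u} [CommRing T] [Algebra k T] (hT : IsSmoothable k T)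
    (τ : T →ₐ[k] k) (z : T) (hz0 : z ≠ 0) (hτ : τ z = 0) (hz : ∀ t, t * z = τ t • z)
    {G : Type u} [CommRing G] [Algebra k G] [Module.Finite k G] (g : T →ₐ[k] G) (hgz : g z = 0)
    (η : G) (hη : ∀ t, g t * η = τ t • η) (hηη : η * η = 0)
    (hG : ∀ x : G, ∃ (t : T) (r : k), x = g t + r • η) (hfr : finrank k T ≤ finrank k G) :
    IsSmoothable k G := by
  obtain ⟨𝒜₀, i1, i2, π, hm⟩ := isSmoothable_iff.mp hT
  have hf := hm.finite
  have hfree := hm.free
  have hflat := hm.flat
  obtain ⟨z₀, hz₀⟩ := hm.surj z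
  obtain ⟨d₀, hd₀⟩ : ∃ d₀, z₀ * z₀ = (X : PowerSeries k) • d₀ := by
    have h1 : z₀ * z₀ ∈ RingHom.ker π := by
      rw [RingHom.mem_ker, map_mul, hz₀, hz, hτ, zero_smul]
    rw [hm.ker, Ideal.mem_span_singleton'] at h1
    obtain ⟨d₀, h⟩ := h1
    exact ⟨d₀, by rw [Algebra.smul_def, ← h, mul_comm]⟩
  let 𝒜 := Rme k 2 𝒜₀
  let zt : 𝒜 := tm 1 z₀
  let p : 𝒜 →+* T := redC hm
  have hps : ∀ (r : PowerSeries k) (x : 𝒜), p (r • x) = constantCoeff r • p x := redC_smul hm
  have hpz : p zt = z := by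
    show redC hm (tm 1 z₀) = z
    rw [redC_tm, map_one, one_smul, hz₀]
  have hF2 : zt * zt = (X : PowerSeries k) ^ 3 • tm 1 d₀ := by
    show tm 1 z₀ * tm 1 z₀ = _
    rw [tm_mul, mul_one, hd₀, tm_smul, smul_tm, expand_X]
  let 𝒦 := Om k ⊗[PowerSeries k] 𝒜
  let ι : 𝒜 →ₐ[PowerSeries k] 𝒦 := Algebra.TensorProduct.includeRight
  have hι : Function.Injective ι :=
    Algebra.TensorProduct.includeRight_injective algebraMap_om_injective
  let xi : Om k := (algebraMap (PowerSeries k) (Om k) X)⁻¹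
  have hX0 : algebraMap (PowerSeries k) (Om k) X ≠ 0 := by
    rw [Ne, map_eq_zero_iff _ algebraMap_om_injective]
    exact X_ne_zero
  have hxi : (X : PowerSeries k) • xi = 1 := by
    rw [Algebra.smul_def, mul_inv_cancel₀ hX0]
  have hcancel : ∀ u u' : 𝒦, (X : PowerSeries k) • u = (X : PowerSeries k) • u' → u = u' := by
    intro u u' h
    rw [← algebraMap_smul (Om k), ← algebraMap_smul (Om k) _ u'] at h
    exact smul_right_injective 𝒦 hX0 h
  let w : 𝒦 := xi ⊗ₜ zt
  have hXw : (X : PowerSeries k) • w = ι zt := by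
    show (X : PowerSeries k) • (xi ⊗ₜ[PowerSeries k] zt) = (1 : Om k) ⊗ₜ zt
    rw [TensorProduct.smul_tmul', hxi]
  have hww : w * w = (X : PowerSeries k) • ι (tm 1 d₀) := by
    apply hcancel
    apply hcancel
    have h1 : (X : PowerSeries k) • (X : PowerSeries k) • (w * w) =
        ((X : PowerSeries k) • w) * ((X : PowerSeries k) • w) := by
      rw [smul_mul_smul_comm, smul_smul]
    rw [h1, hXw, ← map_mul, hF2, map_smul, smul_smul, smul_smul]
    congr 1
    ring
  have hF1 : ∀ a : 𝒜, ∃ (ρ : PowerSeries k) (c : 𝒜),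
      ι a * w = ρ • w + (X : PowerSeries k) ^ 2 • ι c ∧ constantCoeff ρ = τ (p a) := by
    intro a
    obtain ⟨ρ, c, h1, h2⟩ := exists_mul_socle hm τ hz hz₀ a
    refine ⟨ρ, c, ?_, h2⟩
    apply hcancel
    rw [← mul_smul_comm, hXw, ← map_mul, smul_add, smul_comm _ ρ w, hXw]
    have h3 := congrArg ι h1
    rw [map_add, map_smul, map_smul] at h3
    refine h3.trans ?_
    rw [smul_smul]
    congr 2
    ring
  -- well-definedness
  have hwd : ∀ (a a' : 𝒜) (r r' : PowerSeries k), ι a + r • w = ι a' + r' • w →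
      g (p a) + constantCoeff r • η = g (p a') + constantCoeff r' • η := by
    intro a a' r r' h
    have h1 : (X : PowerSeries k) • (a - a') = (r' - r) • zt := by
      apply hι
      rw [map_smul, map_smul, map_sub, ← hXw, sub_smul, smul_comm _ X w, smul_comm _ X w,
        ← smul_sub]
      congr 1
      linear_combination (exp := 1) h
    have h2 : constantCoeff (r' - r) = 0 := by
      have h3 := congrArg p h1
      rw [hps, hps, constantCoeff_X, zero_smul, hpz] at h3
      exact (smul_eq_zero.mp h3.symm).resolve_right hz0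
    obtain ⟨q, hq⟩ := X_dvd_iff.mpr h2
    have h4 : a - a' = q • zt := by
      rw [hq, mul_smul] at h1
      exact smul_right_injective 𝒜 X_ne_zero h1
    have h5 := congrArg p h4
    rw [hps, hpz, map_sub] at h5
    have h6 := congrArg g h5
    rw [map_smul, hgz, smul_zero, map_sub, sub_eq_zero] at h6
    rw [map_sub, sub_eq_zero] at h2
    rw [h6, h2]
  let _ : Algebra (PowerSeries k) G := constAlg k G
  have hGal : ∀ r : PowerSeries k, algebraMap (PowerSeries k) G r =
      algebraMap k G (constantCoeff r) := fun _ => rfl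
  let Γ : Subalgebra (PowerSeries k) (𝒦 × G) :=
    { carrier := {u | ∃ (a : 𝒜) (r : PowerSeries k), u.1 = ι a + r • w ∧
        u.2 = g (p a) + constantCoeff r • η}
      mul_mem' := by
        rintro u v ⟨a, r, hu1, hu2⟩ ⟨a', r', hv1, hv2⟩
        obtain ⟨ρ, c, h1, h2⟩ := hF1 a
        obtain ⟨ρ', c', h1', h2'⟩ := hF1 a'
        refine ⟨a * a' + (X : PowerSeries k) • ((X : PowerSeries k) • (r' • c + r • c') +
          (r * r') • tm 1 d₀), r' * ρ + r * ρ', ?_, ?_⟩
        · rw [Prod.fst_mul, hu1, hv1]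
          exact cut_aux ι w a a' c c' (tm 1 d₀) r r' ρ ρ' X h1 h1' hww
        · rw [Prod.snd_mul, hu2, hv2, map_add, map_mul p, hps, constantCoeff_X, zero_smul,
            add_zero, map_mul g, map_add, map_mul, map_mul, h2, h2', add_smul, mul_smul,
            mul_smul, ← hη, ← hη]
          simp only [Algebra.smul_def]
          linear_combination (algebraMap k G (constantCoeff r) *
            algebraMap k G (constantCoeff r')) * hηη
      add_mem' := by
        rintro u v ⟨a, r, hu1, hu2⟩ ⟨a', r', hv1, hv2⟩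
        refine ⟨a + a', r + r', ?_, ?_⟩
        · rw [Prod.fst_add, hu1, hv1, map_add, add_smul]
          abel
        · rw [Prod.snd_add, hu2, hv2, map_add, map_add, map_add, add_smul]
          abel
      algebraMap_mem' := by
        intro r
        refine ⟨algebraMap (PowerSeries k) 𝒜 r, 0, ?_, ?_⟩
        · rw [zero_smul, add_zero, AlgHom.commutes]
          rfl
        · rw [map_zero, zero_smul, add_zero, Algebra.algebraMap_eq_smul_one (R := PowerSeries k)
            (A := 𝒜), hps, map_one, map_smul, map_one, ← Algebra.algebraMap_eq_smul_one]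
          rfl }
  have hpal : ∀ r : PowerSeries k, algebraMap (PowerSeries k) Γ r =
      ⟨(algebraMap (PowerSeries k) 𝒦 r, algebraMap k G (constantCoeff r)), Γ.algebraMap_mem r⟩ :=
    fun _ => rfl
  have hinj : ∀ u v : Γ, (u : 𝒦 × G).1 = (v : 𝒦 × G).1 → u = v := by
    rintro ⟨u, a, r, hu1, hu2⟩ ⟨v, a', r', hv1, hv2⟩ h
    apply Subtype.ext
    refine Prod.ext h ?_
    have h' : u.1 = v.1 := h
    rw [hu1, hv1] at h'
    show u.2 = v.2
    rw [hu2, hv2]
    exact hwd a a' r r' h'
  let e := LinearEquiv.ofInjective ι.toLinearMap hι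
  have he : ∀ a : 𝒜, (e a : 𝒦) = ι a := fun _ => rfl
  let m : Γ →ₗ[PowerSeries k] LinearMap.range ι.toLinearMap :=
    ((X : PowerSeries k) • ((LinearMap.fst (PowerSeries k) 𝒦 G).comp
      Γ.val.toLinearMap)).codRestrict _ (by
      rintro ⟨u, a, r, hu1, hu2⟩
      refine ⟨(X : PowerSeries k) • a + r • zt, ?_⟩
      show ι ((X : PowerSeries k) • a + r • zt) = (X : PowerSeries k) • u.1
      rw [hu1, map_add, map_smul, map_smul, smul_add, smul_comm _ r w, hXw])
  have hmv : ∀ u : Γ, (m u : 𝒦) = (X : PowerSeries k) • (u : 𝒦 × G).1 := fun _ => rfl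
  let j : Γ →ₗ[PowerSeries k] 𝒜 := e.symm.toLinearMap.comp m
  have hιj : ∀ u : Γ, ι (j u) = (X : PowerSeries k) • (u : 𝒦 × G).1 := by
    intro u
    rw [← he, ← hmv]
    congr 1
    exact e.apply_symm_apply _
  have hj : Function.Injective j := by
    intro u v h
    apply hinj
    apply hcancel
    rw [← hιj, ← hιj, h]
  have hjmul : ∀ u v, j u * j v = (X : PowerSeries k) • j (u * v) := by
    intro u v
    apply hι
    rw [map_mul, map_smul, hιj, hιj, hιj, smul_mul_smul_comm, mul_smul]
    rfl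
  obtain ⟨B, l1, l2, π', hB, hBfr⟩ := exists_model_of_lattice (isReduced_rme k 2 𝒜₀ hm.reduced)
    j hj hjmul
  let ρ : Γ →+* G := (RingHom.snd 𝒦 G).comp Γ.toSubring.subtype
  obtain ⟨q, hq⟩ := hB.exists_lift ρ (by
      show algebraMap k G (constantCoeff X) = 0
      rw [constantCoeff_X, map_zero]) (by
      intro r
      show algebraMap k G (constantCoeff (C r)) = algebraMap k G r
      rw [constantCoeff_C])
  have hdle : Dle k G (finrank k T) := by
    refine ⟨B, l1, l2, isSmoothable_iff.mpr ⟨_, _, _, _, hB⟩, ⟨q, ?_⟩, ?_⟩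
    · intro x
      obtain ⟨t, r, rfl⟩ := hG x
      obtain ⟨a, ha⟩ := redC_surjective hm t
      refine ⟨π' ⟨(ι a + (C r : PowerSeries k) • w, g t + r • η), a, C r, rfl, ?_⟩, ?_⟩
      · show g t + r • η = g (redC hm a) + constantCoeff (C r) • η
        rw [ha, constantCoeff_C]
      · rw [hq]
        rfl
    · rw [finrank_rme, ← hm.finrank_eq] at hBfr
      exact hBfr
  exact isSmoothable_of_dle k (hdle.mono hfr)

end cut

end Pool.Agent.H62.TL
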