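import Pool.Agent.H62.TL.Tails
import Pool.Agent.H62.TL.Add
import Pool.Agent.H62.BC.Pow

/-!
# Tails: the final form
-/

open TensorProduct Module

namespace Pool.Agent.H62.TL

open Pool.Agent.H12.Defect Pool.Agent.H14.MM Pool.Agent.H15.Defect Pool.Agent.H15.CX
open Pool.Agent.H15.ER Pool.Agent.H62.BC
open Pool.Agent.H14.RF hiding tr

universe u

section loc

variable {k : Type u} [Field k]

/-- The closed point of a local algebra. -/
theorem exists_local_point [IsAlgClosed k] (A : Type u) [CommRing A] [Algebra k A]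
    [Module.Finite k A] [IsLocalRing A] : ∃ (α : A →ₐ[k] k) (c : ℕ),
      RingHom.ker α = IsLocalRing.maximalIdeal A ∧ RingHom.ker α ^ c = ⊥ := by
  obtain ⟨α⟩ := exists_point (k := k) (A := A)
  have hsur : Function.Surjective (α : A →+* k) := fun r => ⟨algebraMap k A r, α.commutes r⟩
  have hmax : (RingHom.ker α).IsMaximal := RingHom.ker_isMaximal_of_surjective _ hsur
  have hk : RingHom.ker α = IsLocalRing.maximalIdeal A := IsLocalRing.eq_maximalIdeal hmax
  have hart : IsArtinianRing A := IsArtinianRing.of_finite k A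
  obtain ⟨c, hc⟩ := IsArtinianRing.isNilpotent_jacobson_bot (R := A)
  rw [IsLocalRing.jacobson_eq_maximalIdeal ⊥ bot_ne_top, ← hk] at hc
  exact ⟨α, c, hk, hc⟩

theorem smul_of_killed {A F : Type u} [CommRing A] [Algebra k A] [IsLocalRing A]
    [AddCommGroup F] [Module k F] [Module A F] [IsScalarTower k A F] (α : A →ₐ[k] k)
    (hα : RingHom.ker α = IsLocalRing.maximalIdeal A)
    (hF : ∀ a ∈ IsLocalRing.maximalIdeal A, ∀ f : F, a • f = 0) (a : A) (f : F) :
    a • f = α a • f := by
  have h1 : a - algebraMap k A (α a) ∈ IsLocalRing.maximalIdeal A := by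
    rw [← hα, RingHom.mem_ker, map_sub, AlgHom.commutes]
    exact sub_self _
  have h2 := hF _ h1 f
  rw [sub_smul, algebraMap_smul, sub_eq_zero] at h2
  exact h2

/-- The concrete idealization and the trivial extension by a module killed by the maximal ideal. -/
theorem nonempty_equiv_triv {A F : Type u} [CommRing A] [Algebra k A] [AddCommGroup F] [Module k F]
    [Module.Finite k F] [Module A F] [IsScalarTower k A F] [Module Aᵐᵒᵖ F] [IsCentralScalar A F]
    (α : A →ₐ[k] k) (hF : ∀ (a : A) (f : F), a • f = α a • f) :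
    Nonempty (Idz (powH α (finrank k F)) ≃ₐ[k] TrivSqZeroExt A F) := by
  let e : F ≃ₗ[k] (Fin (finrank k F) → k) := (Module.finBasis k F).equivFun
  let f : Idz (powH α (finrank k F)) →ₐ[k] TrivSqZeroExt A F := AlgHom.ofLinearMap
    { toFun := fun x => ((x.1, e.symm x.2) : A × F)
      map_add' := by
        intro x y
        exact Prod.ext rfl (map_add e.symm _ _)
      map_smul' := by
        intro c x
        exact Prod.ext rfl (map_smul e.symm _ _) }
    (Prod.ext rfl (map_zero e.symm))
    (by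
      intro x y
      apply TrivSqZeroExt.ext
      · rfl
      · show e.symm (x * y).2 = x.1 • e.symm y.2 + MulOpposite.op y.1 • e.symm x.2
        have h1 : (x * y).2 = α x.1 • y.2 + α y.1 • x.2 := rfl
        rw [op_smul_eq_smul, hF, hF, h1, map_add, map_smul, map_smul])
  refine ⟨AlgEquiv.ofBijective f ⟨?_, ?_⟩⟩
  · intro x y h
    have h1 : x.1 = y.1 := congrArg (fun w : TrivSqZeroExt A F => w.fst) h
    have h2 : e.symm x.2 = e.symm y.2 := congrArg (fun w : TrivSqZeroExt A F => w.snd) h
    exact Idz.ext' h1 (e.symm.injective h2)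
  · intro z
    let x : Idz (powH α (finrank k F)) := ((z.fst, e z.snd) : A × (Fin (finrank k F) → k))
    refine ⟨x, ?_⟩
    apply TrivSqZeroExt.ext
    · rfl
    · exact e.symm_apply_apply _

theorem finite_triv {A F : Type u} [CommRing A] [Algebra k A] [Module.Finite k A]
    [AddCommGroup F] [Module k F] [Module.Finite k F] [Module A F] [Module Aᵐᵒᵖ F] :
    Module.Finite k (TrivSqZeroExt A F) := inferInstanceAs (Module.Finite k (A × F))

/-- The tails lemma: for a local scheme `Spec A` and an `A`-module `F` killed by the maximal ideal,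
`Spec (A ⊕ F)` is smoothable if and only if the defect of `Spec A` is at most `dim F`. -/
theorem tails [IsAlgClosed k] (A F : Type u) [CommRing A] [Algebra k A] [Module.Finite k A]
    [IsLocalRing A] [AddCommGroup F] [Module k F] [Module.Finite k F] [Module A F]
    [IsScalarTower k A F] [Module Aᵐᵒᵖ F] [IsCentralScalar A F]
    (hF : ∀ a ∈ IsLocalRing.maximalIdeal A, ∀ f : F, a • f = 0) :
    IsSmoothable k (TrivSqZeroExt A F) ↔ defect k A ≤ (finrank k F : ℕ∞) := by
  obtain ⟨α, c, hα, hc⟩ := exists_local_point (k := k) A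
  constructor
  · intro h
    have h1 : Dle k A (finrank k (TrivSqZeroExt A F)) := (IsSmoothable.dle h).of_surjective
      (TrivSqZeroExt.fstHom k A F) (fun a => ⟨TrivSqZeroExt.inl a, rfl⟩)
    refine defect_le_of_dle h1 (le_of_eq ?_)
    have h2 : finrank k (TrivSqZeroExt A F) = finrank k (A × F) := rfl
    rw [h2, Module.finrank_prod]
  · intro h
    obtain ⟨E⟩ := nonempty_equiv_triv (k := k) (A := A) (F := F) α (smul_of_killed α hα hF)
    exact IsSmoothable.of_equiv E (idz_of_dle α hc (dle_of_defect_le h))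

theorem ker_pow_triv {A M : Type u} [CommRing A] [Algebra k A] [AddCommGroup M] [Module k M]
    [Module A M] [IsScalarTower k A M] [Module Aᵐᵒᵖ M] [IsCentralScalar A M] (α : A →ₐ[k] k) {c : ℕ}
    (hc : RingHom.ker α ^ c = ⊥) :
    RingHom.ker (α.comp (TrivSqZeroExt.fstHom k A M)) ^ (c + c) = ⊥ := by
  let I := RingHom.ker (α.comp (TrivSqZeroExt.fstHom k A M))
  let φ : TrivSqZeroExt A M →+* A := (TrivSqZeroExt.fstHom k A M : TrivSqZeroExt A M →ₐ[k] A)
  have h1 : I.map φ ≤ RingHom.ker α := by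
    rw [Ideal.map_le_iff_le_comap]
    intro x hx
    exact hx
  have h2 : I ^ c ≤ RingHom.ker φ := by
    have h3 : (I ^ c).map φ ≤ ⊥ := by
      rw [Ideal.map_pow, ← hc]
      exact Ideal.pow_right_mono h1 c
    rw [Ideal.map_le_iff_le_comap] at h3
    intro x hx
    exact h3 hx
  rw [eq_bot_iff, pow_add]
  refine (Ideal.mul_mono h2 h2).trans ?_
  rw [Ideal.mul_le]
  intro x hx y hy
  have hx' : x.fst = 0 := hx
  have hy' : y.fst = 0 := hy
  rw [Ideal.mem_bot]
  apply TrivSqZeroExt.ext
  · rw [TrivSqZeroExt.fst_mul, hx', zero_mul, TrivSqZeroExt.fst_zero]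
  · rw [TrivSqZeroExt.snd_mul, hx', hy', zero_smul, MulOpposite.op_zero, zero_smul, add_zero,
      TrivSqZeroExt.snd_zero]

/-- `A ⊕ M ⊕ F` is smoothable when `F` is large. -/
theorem tails_add [IsAlgClosed k] (A M F : Type u) [CommRing A] [Algebra k A] [Module.Finite k A]
    [IsLocalRing A] [AddCommGroup M] [Module k M] [Module.Finite k M] [Module A M]
    [IsScalarTower k A M] [Module Aᵐᵒᵖ M] [IsCentralScalar A M]
    [AddCommGroup F] [Module k F] [Module.Finite k F] [Module A F]
    [IsScalarTower k A F] [Module Aᵐᵒᵖ F] [IsCentralScalar A F]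
    (hF : ∀ a ∈ IsLocalRing.maximalIdeal A, ∀ f : F, a • f = 0)
    (h : defect k (TrivSqZeroExt A M) ≤ (finrank k F : ℕ∞)) :
    IsSmoothable k (TrivSqZeroExt A (M × F)) := by
  obtain ⟨α, c, hα, hc⟩ := exists_local_point (k := k) A
  have hfin : Module.Finite k (TrivSqZeroExt A M) := finite_triv
  let α' : TrivSqZeroExt A M →ₐ[k] k := α.comp (TrivSqZeroExt.fstHom k A M)
  have h1 := idz_of_dle α' (ker_pow_triv α hc) (dle_of_defect_le h)
  let e : F ≃ₗ[k] (Fin (finrank k F) → k) := (Module.finBasis k F).equivFun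
  have hF' := smul_of_killed α hα hF
  let f : Idz (powH α' (finrank k F)) →ₐ[k] TrivSqZeroExt A (M × F) := AlgHom.ofLinearMap
    { toFun := fun x => ((x.1.fst, (x.1.snd, e.symm x.2)) : A × (M × F))
      map_add' := by
        intro x y
        exact Prod.ext rfl (Prod.ext rfl (map_add e.symm _ _))
      map_smul' := by
        intro c x
        exact Prod.ext rfl (Prod.ext rfl (map_smul e.symm _ _)) }
    (Prod.ext rfl (Prod.ext rfl (map_zero e.symm)))
    (by
      intro x y
      apply TrivSqZeroExt.ext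
      · rfl
      · apply Prod.ext
        · rfl
        · show e.symm (x * y).2 = x.1.fst • e.symm y.2 + MulOpposite.op y.1.fst • e.symm x.2
          have h1 : (x * y).2 = α x.1.fst • y.2 + α y.1.fst • x.2 := rfl
          rw [op_smul_eq_smul, hF', hF', h1, map_add, map_smul, map_smul])
  refine IsSmoothable.of_equiv (AlgEquiv.ofBijective f ⟨?_, ?_⟩) h1
  · intro x y h
    have h1 : x.1.fst = y.1.fst := congrArg (fun w : TrivSqZeroExt A (M × F) => w.fst) h
    have h2 : (x.1.snd, e.symm x.2) = (y.1.snd, e.symm y.2) :=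
      congrArg (fun w : TrivSqZeroExt A (M × F) => w.snd) h
    refine Idz.ext' (TrivSqZeroExt.ext h1 (congrArg Prod.fst h2)) (e.symm.injective ?_)
    exact congrArg Prod.snd h2
  · intro z
    let x : Idz (powH α' (finrank k F)) :=
      (((z.fst, z.snd.1), e z.snd.2) : (A × M) × (Fin (finrank k F) → k))
    refine ⟨x, ?_⟩
    apply TrivSqZeroExt.ext
    · rfl
    · apply Prod.ext
      · rfl
      · exact e.symm_apply_apply _

end loc

/-- Bounded catalysis for modules, with tails. -/
theorem bounded_modules_tails (k : Type u) [Field k] [IsAlgClosed k] (d m : ℕ) : ∃ C : ℕ,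
    ∀ (A E : Type u) [CommRing A] [Algebra k A] [Module.Finite k A] [AddCommGroup E] [Module k E]
      [Module.Finite k E] [Module A E] [IsScalarTower k A E] [Module Aᵐᵒᵖ E] [IsCentralScalar A E],
      finrank k A = d → finrank k E = m →
      ∀ b : ℕ, defect k (TrivSqZeroExt A (Fin b → E)) ≤ (C : ℕ∞) ∧
        ∀ (F : Type u) [AddCommGroup F] [Module k F] [Module.Finite k F] [Module A F]
          [IsScalarTower k A F] [Module Aᵐᵒᵖ F] [IsCentralScalar A F] [IsLocalRing A],
          (∀ a ∈ IsLocalRing.maximalIdeal A, ∀ f : F, a • f = 0) → C ≤ finrank k F →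
          IsSmoothable k (TrivSqZeroExt A ((Fin b → E) × F)) := by
  obtain ⟨C, hC⟩ := bounded_modules k d m
  refine ⟨C, ?_⟩
  intro A E _ _ _ _ _ _ _ _ _ _ hd hm b
  refine ⟨hC A E hd hm b, ?_⟩
  intro F _ _ _ _ _ _ _ _ hF hle
  refine tails_add A (Fin b → E) F hF ((hC A E hd hm b).trans ?_)
  exact_mod_cast hle

/-- The defect does not change when a smoothable scheme is added. -/
theorem defect_prod_ZZ (k : Type u) [Field k] (A : Type u) [CommRing A] [Algebra k A]
    [Module.Finite k A] (b : ℕ) : defect k (A × ZZ k b) = defect k A := by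
  rw [defect_prod, defect_eq_zero_of_smoothable (isSmoothable_ZZ k b), add_zero]

/-- The final form of the quantitative part, with the defect of the disjoint union. -/
theorem bounded_final (k : Type u) [Field k] [IsAlgClosed k] (d : ℕ) : ∃ K : ℕ,
    ∀ (A : Type u) [CommRing A] [Algebra k A] [Module.Finite k A] [Nontrivial A],
      finrank k A = d →
      (∀ n b : ℕ, 1 ≤ n → defect k ((⨂[k] _ : Fin n, A) ⊗[k] ZZ k b) ≤ ((K ^ n : ℕ) : ℕ∞)) ∧
      (∀ B : ℕ, K < B → Filter.Tendsto (fun n : ℕ =>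
        ((defect k ((⨂[k] _ : Fin n, A) ⊗[k] ZZ k (B ^ n))).toNat : ℝ) /
          ((d : ℝ) ^ n * ((B : ℝ) ^ n + 1))) Filter.atTop (nhds 0)) ∧
      ∀ b : ℕ, (d * ((b : ℝ) + 1) ≤ Lam k (A ⊗[k] ZZ k b) ∧
          Lam k (A ⊗[k] ZZ k b) ≤ d * ((b : ℝ) + 1) + K) ∧
        defect k (A × ZZ k b) = defect k A ∧
        (d + ((b : ℝ) + 1) ≤ Lam k (A × ZZ k b) ∧
          Lam k (A × ZZ k b) ≤ d + ((b : ℝ) + 1) + K / ((b : ℝ) + 1)) := by
  obtain ⟨K, h⟩ := Pool.Agent.H62.BC.bounded_final k d
  refine ⟨K, ?_⟩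
  intro A _ _ _ _ hd
  obtain ⟨h1, h2, h3⟩ := h A hd
  exact ⟨h1, h2, fun b => ⟨(h3 b).1, defect_prod_ZZ k A b, (h3 b).2⟩⟩

end Pool.Agent.H62.TL
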