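import Pool.Agent.H15.DB.Jet
import Pool.Agent.H15.CX.Limits

/-!
# Smoothable algebras from lattices with poles
-/

open TensorProduct Module PowerSeries

namespace Pool.Agent.H62.TL

open Pool.Agent.H12.Defect Pool.Agent.H15.Defect Pool.Agent.H15.CX Pool.Agent.H15.DB

universe u

section model

variable {k : Type u} [Field k]

/-- A finite free algebra over `k⟦X⟧` with reduced geometric generic fibre is a smoothing of its
special fibre. -/
theorem exists_model_of_free {𝒬 : Type u} [CommRing 𝒬] [Algebra (PowerSeries k) 𝒬]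
    [Module.Finite (PowerSeries k) 𝒬] [Module.Free (PowerSeries k) 𝒬]
    (hred : IsReduced (Om k ⊗[PowerSeries k] 𝒬)) :
    ∃ (B : Type u) (_ : CommRing B) (_ : Algebra k B) (π : 𝒬 →+* B), IsModel k π := by
  have hPfl : Module.Flat (PowerSeries k) 𝒬 := inferInstance
  let I : Ideal 𝒬 := Ideal.span {algebraMap (PowerSeries k) 𝒬 X}
  let i : Algebra k (𝒬 ⧸ I) := Algebra.compHom (𝒬 ⧸ I) (C (R := k))
  refine ⟨𝒬 ⧸ I, inferInstance, i, Ideal.Quotient.mk I, ?_⟩
  refine ⟨inferInstance, hPfl, hred, Ideal.Quotient.mk_surjective, Ideal.mk_ker, ?_⟩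
  intro r
  rfl

/-- Let `j : 𝒬 → 𝒜` be an injective linear map with `j x * j y = X * j (x y)` (multiplication by `X`
on a larger lattice). Then `𝒬` is a smoothing of its special fibre if the generic fibre of `𝒜` is
geometrically reduced. -/
theorem exists_model_of_lattice {𝒜 : Type u} [CommRing 𝒜] [Algebra (PowerSeries k) 𝒜]
    [Module.Finite (PowerSeries k) 𝒜] [Module.Free (PowerSeries k) 𝒜]
    (hred : IsReduced (Om k ⊗[PowerSeries k] 𝒜)) {𝒬 : Type u} [CommRing 𝒬]
    [Algebra (PowerSeries k) 𝒬] (j : 𝒬 →ₗ[PowerSeries k] 𝒜) (hj : Function.Injective j)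
    (hmul : ∀ x y, j x * j y = (X : PowerSeries k) • j (x * y)) :
    ∃ (B : Type u) (_ : CommRing B) (_ : Algebra k B) (π : 𝒬 →+* B), IsModel k π ∧
      finrank k B ≤ finrank (PowerSeries k) 𝒜 := by
  have hnoeth : IsNoetherian (PowerSeries k) 𝒜 := isNoetherian_of_isNoetherianRing_of_finite _ _
  have hfin : Module.Finite (PowerSeries k) 𝒬 := Module.Finite.of_injective j hj
  have hfree : Module.Free (PowerSeries k) 𝒬 :=
    Module.Free.of_equiv (LinearEquiv.ofInjective j hj).symm
  let Φ : Om k ⊗[PowerSeries k] 𝒬 →ₗ[PowerSeries k] Om k ⊗[PowerSeries k] 𝒜 :=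
    TensorProduct.map LinearMap.id j
  have hΦ : Function.Injective Φ := Module.Flat.lTensor_preserves_injective_linearMap j hj
  have hΦmul : ∀ x y, Φ x * Φ y = (X : PowerSeries k) • Φ (x * y) := by
    intro x y
    induction x using TensorProduct.induction_on with
    | zero => rw [zero_mul, map_zero, zero_mul, smul_zero]
    | add x x' hx hx' => rw [add_mul, map_add, map_add, add_mul, hx, hx', smul_add]
    | tmul a p =>
      induction y using TensorProduct.induction_on with
      | zero => rw [mul_zero, map_zero, mul_zero, smul_zero]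
      | add y y' hy hy' => rw [mul_add, map_add, map_add, mul_add, hy, hy', smul_add]
      | tmul b q =>
        rw [Algebra.TensorProduct.tmul_mul_tmul, TensorProduct.map_tmul, TensorProduct.map_tmul,
          TensorProduct.map_tmul, Algebra.TensorProduct.tmul_mul_tmul, LinearMap.id_apply,
          LinearMap.id_apply, LinearMap.id_apply, hmul, TensorProduct.tmul_smul]
  have hΦpow : ∀ (x : Om k ⊗[PowerSeries k] 𝒬) (n : ℕ),
      Φ x ^ (n + 1) = ((X : PowerSeries k) ^ n) • Φ (x ^ (n + 1)) := by
    intro x n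
    induction n with
    | zero => rw [zero_add, pow_one, pow_one, pow_zero, one_smul]
    | succ n ih =>
      rw [pow_succ (Φ x), ih, smul_mul_assoc, hΦmul, smul_smul, ← pow_succ, ← pow_succ]
  have hred' : IsReduced (Om k ⊗[PowerSeries k] 𝒬) := by
    refine ⟨fun x hx => ?_⟩
    obtain ⟨n, hn⟩ := hx
    have h1 : IsNilpotent (Φ x) := ⟨n + 1, by
      rw [hΦpow, pow_succ, hn, zero_mul, map_zero, smul_zero]⟩
    have h2 : Φ x = 0 := h1.eq_zero
    exact hΦ (h2.trans (map_zero Φ).symm)
  obtain ⟨B, i1, i2, π, h⟩ := exists_model_of_free (k := k) hred'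
  refine ⟨B, i1, i2, π, h, ?_⟩
  rw [h.finrank_eq]
  exact LinearMap.finrank_le_finrank_of_injective hj

end model

end Pool.Agent.H62.TL
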