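import Pool.Agent.H62.TL.Cut
import Pool.Agent.H15.CX.Dual
import Pool.Agent.H15.CX.Cover

/-!
# Tails: smoothability after adding a trivial ideal
-/

open TensorProduct Module PowerSeries

namespace Pool.Agent.H62.TL

open Pool.Agent.H12.Defect Pool.Agent.H15.Defect Pool.Agent.H15.CX
open Pool.Agent.H15.ER

universe u

section tail

variable {k : Type u} [Field k]

/-- Adding a trivial tangent direction at a point costs one. -/
theorem dle_tail {T : Type u} [CommRing T] [Algebra k T] {N : ℕ} (hT : Dle k T N)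
    (τ : T →ₐ[k] k) {G : Type u} [CommRing G] [Algebra k G] (g : T →ₐ[k] G)
    (η : G) (hη : ∀ t, g t * η = τ t • η) (hηη : η * η = 0)
    (hG : ∀ x : G, ∃ (t : T) (r : k), x = g t + r • η) : Dle k G (N + 1) := by
  have hE : Dle k (T × k) (N + 1) := hT.prod (dle_self k)
  let S : Subalgebra k (DualNumber (T × k)) :=
    { carrier := {x | x.fst.2 = τ x.fst.1}
      mul_mem' := by
        intro x y hx hy
        have hx' : x.fst.2 = τ x.fst.1 := hx
        have hy' : y.fst.2 = τ y.fst.1 := hy
        show (x * y).fst.2 = τ (x * y).fst.1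
        rw [TrivSqZeroExt.fst_mul, Prod.snd_mul, Prod.fst_mul, map_mul, hx', hy']
      add_mem' := by
        intro x y hx hy
        have hx' : x.fst.2 = τ x.fst.1 := hx
        have hy' : y.fst.2 = τ y.fst.1 := hy
        show (x + y).fst.2 = τ (x + y).fst.1
        rw [TrivSqZeroExt.fst_add, Prod.snd_add, Prod.fst_add, map_add, hx', hy']
      algebraMap_mem' := by
        intro r
        exact (τ.commutes r).symm }
  have heps : (DualNumber.eps : DualNumber (T × k)) ∈ S := by
    show (0 : T × k).2 = τ (0 : T × k).1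
    rw [Prod.fst_zero, Prod.snd_zero, map_zero]
  let ψ0 : DualNumber (T × k) →ₗ[k] G :=
    { toFun := fun x => g x.fst.1 + (x.snd.2 - τ x.snd.1) • η
      map_add' := by
        intro x y
        rw [TrivSqZeroExt.fst_add, TrivSqZeroExt.snd_add, Prod.fst_add, Prod.snd_add,
          Prod.fst_add, map_add, map_add]
        module
      map_smul' := by
        intro c x
        rw [TrivSqZeroExt.fst_smul, TrivSqZeroExt.snd_smul, Prod.smul_fst, Prod.smul_snd,
          Prod.smul_fst, map_smul, map_smul, RingHom.id_apply, smul_eq_mul, smul_eq_mul]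
        module }
  have hψ0 : ∀ x, ψ0 x = g x.fst.1 + (x.snd.2 - τ x.snd.1) • η := fun _ => rfl
  let ψ : S →ₐ[k] G := AlgHom.ofLinearMap (ψ0.comp S.val.toLinearMap)
    (by
      show g 1 + ((0 : k) - τ 0) • η = 1
      rw [map_one, map_zero, sub_zero, zero_smul, add_zero])
    (by
      rintro ⟨x, hx⟩ ⟨y, hy⟩
      have hx' : x.fst.2 = τ x.fst.1 := hx
      have hy' : y.fst.2 = τ y.fst.1 := hy
      show ψ0 (x * y) = ψ0 x * ψ0 y
      have h1 : (x * y).snd = x.fst * y.snd + y.fst * x.snd := by
        rw [TrivSqZeroExt.snd_mul]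
        simp [mul_comm]
      have h2 := hη x.fst.1
      have h3 := hη y.fst.1
      rw [hψ0, hψ0, hψ0, h1, TrivSqZeroExt.fst_mul, Prod.fst_mul, Prod.snd_add, Prod.fst_add,
        Prod.snd_mul, Prod.snd_mul, Prod.fst_mul, Prod.fst_mul, map_mul, map_add, map_mul,
        map_mul, hx', hy']
      simp only [Algebra.smul_def, map_sub, map_add, map_mul] at h2 h3 ⊢
      linear_combination (-(algebraMap k G y.snd.2 - algebraMap k G (τ y.snd.1))) * h2 -
        (algebraMap k G x.snd.2 - algebraMap k G (τ x.snd.1)) * h3 -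
        (algebraMap k G y.snd.2 - algebraMap k G (τ y.snd.1)) *
        (algebraMap k G x.snd.2 - algebraMap k G (τ x.snd.1)) * hηη)
  refine dle_of_dual hE S heps ψ ?_ ?_
  · intro x
    obtain ⟨t, r, rfl⟩ := hG x
    refine ⟨⟨TrivSqZeroExt.inl (t, τ t) + TrivSqZeroExt.inr (0, r), ?_⟩, ?_⟩
    · show ((TrivSqZeroExt.inl (t, τ t) + TrivSqZeroExt.inr (0, r) :
        DualNumber (T × k))).fst.2 = _
      simp
    · show ψ0 _ = _
      rw [hψ0]
      simp
  · show g (0 : T × k).1 + ((1 : T × k).2 - τ (1 : T × k).1) • η = 0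
    rw [Prod.fst_zero, map_zero, Prod.snd_one, Prod.fst_one, map_one, sub_self, zero_smul,
      add_zero]

/-- A local algebra has a local smoothable cover of no larger degree. -/
theorem exists_local_cover_le {A : Type u} [CommRing A] [Algebra k A]
    (α : A →ₐ[k] k) {c : ℕ} (hα : RingHom.ker α ^ c = ⊥) :
    ∀ (N : ℕ) (B : Type u) [CommRing B] [Algebra k B], IsSmoothable k B → finrank k B = N →
      ∀ π : B →ₐ[k] A, Function.Surjective π →
      ∃ (B' : Type u) (_ : CommRing B') (_ : Algebra k B') (π' : B' →ₐ[k] A) (c' : ℕ),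
        IsSmoothable k B' ∧ Function.Surjective π' ∧ RingHom.ker (α.comp π') ^ c' = ⊥ ∧
        finrank k B' ≤ N := by
  intro N
  induction N using Nat.strong_induction_on with
  | _ N ih =>
    intro B _ _ hB hN π hπ
    have hfB := IsSmoothable.finite hB
    rcases local_or_split (α.comp π) with ⟨c', hc'⟩ |
      ⟨B₁, B₂, _, _, _, _, hf1, hf2, _, _, ⟨E⟩⟩
    · exact ⟨B, inferInstance, inferInstance, π, c', hB, hπ, hc', hN.le⟩
    · have hloc := isLocalRing_of_point α hα
      have hB' : IsSmoothable k (B₁ × B₂) := IsSmoothable.of_equiv E hB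
      have hfr : N = finrank k B₁ + finrank k B₂ := by
        rw [← hN, ← Module.finrank_prod]
        exact LinearEquiv.finrank_eq E.toLinearEquiv
      have hp1 := Module.finrank_pos (R := k) (M := B₁)
      have hp2 := Module.finrank_pos (R := k) (M := B₂)
      let p : B₁ × B₂ →ₐ[k] A := π.comp (E.symm : B₁ × B₂ →ₐ[k] B)
      have hp : Function.Surjective p := hπ.comp E.symm.surjective
      have hp11 : p (1, 1) = 1 := map_one p
      have hp00 : p (0, 0) = 0 := map_zero p
      have hsum : p (1, 0) + p (0, 1) = 1 := by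
        rw [← map_add, ← hp11]
        simp
      have hcase : p (1, 0) = 0 ∨ p (0, 1) = 0 := by
        rcases IsLocalRing.isUnit_or_isUnit_of_add_one hsum with h | h
        · right
          have h1 : p (1, 0) * p (0, 1) = 0 := by
            rw [← map_mul, ← hp00]
            simp
          exact (IsUnit.mul_right_eq_zero h).mp h1
        · left
          have h1 : p (1, 0) * p (0, 1) = 0 := by
            rw [← map_mul, ← hp00]
            simp
          exact (IsUnit.mul_left_eq_zero h).mp h1
      rcases hcase with h0 | h0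
      · have h1 : ∀ b₁ b₂, p (b₁, b₂) = p (0, b₂) := by
          intro b₁ b₂
          have h2 : ((b₁, b₂) : B₁ × B₂) = (b₁, 0) * (1, 0) + (0, b₂) := by simp
          rw [h2, map_add, map_mul, h0, mul_zero, zero_add]
        let p2 : B₂ →ₐ[k] A := AlgHom.ofLinearMap (p.toLinearMap.comp (LinearMap.inr k B₁ B₂))
          (by
            show p (0, 1) = 1
            rw [← h1 1 1]
            exact map_one p)
          (by
            intro x y
            show p (0, x * y) = p (0, x) * p (0, y)
            rw [← map_mul]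
            simp)
        obtain ⟨B', i1, i2, π', c', h3, h4, h5, h6⟩ := ih (finrank k B₂) (by omega) B₂
          (isSmoothable_snd hB') rfl p2 (by
          intro a
          obtain ⟨⟨b₁, b₂⟩, hb⟩ := hp a
          exact ⟨b₂, by rw [← hb, h1]; rfl⟩)
        exact ⟨B', i1, i2, π', c', h3, h4, h5, by omega⟩
      · have h1 : ∀ b₁ b₂, p (b₁, b₂) = p (b₁, 0) := by
          intro b₁ b₂
          have h2 : ((b₁, b₂) : B₁ × B₂) = (0, b₂) * (0, 1) + (b₁, 0) := by simp
          rw [h2, map_add, map_mul, h0, mul_zero, zero_add]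
        let p2 : B₁ →ₐ[k] A := AlgHom.ofLinearMap (p.toLinearMap.comp (LinearMap.inl k B₁ B₂))
          (by
            show p (1, 0) = 1
            rw [← h1 1 1]
            exact map_one p)
          (by
            intro x y
            show p (x * y, 0) = p (x, 0) * p (y, 0)
            rw [← map_mul]
            simp)
        obtain ⟨B', i1, i2, π', c', h3, h4, h5, h6⟩ := ih (finrank k B₁) (by omega) B₁
          (isSmoothable_fst hB') rfl p2 (by
          intro a
          obtain ⟨⟨b₁, b₂⟩, hb⟩ := hp a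
          exact ⟨b₁, by rw [← hb, h1]; rfl⟩)
        exact ⟨B', i1, i2, π', c', h3, h4, h5, by omega⟩

end tail

section idz

variable {k : Type u} [Field k]

/-- prepend a zero -/
noncomputable def consL (k : Type u) [Field k] (t : ℕ) : (Fin t → k) →ₗ[k] (Fin (t + 1) → k) :=
  LinearMap.pi (Fin.cases 0 (fun i => LinearMap.proj i))

@[simp] theorem consL_zero (t : ℕ) (v : Fin t → k) : consL k t v 0 = 0 := rfl

@[simp] theorem consL_succ (t : ℕ) (v : Fin t → k) (i : Fin t) : consL k t v i.succ = v i := rfl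

theorem finrank_idz_pow {A : Type u} [CommRing A] [Algebra k A] [Module.Finite k A]
    (α : A →ₐ[k] k) (t : ℕ) : finrank k (Idz (powH α t)) = finrank k A + t := by
  have h1 : finrank k (A × (Fin t → k)) = finrank k A + t := by
    rw [Module.finrank_prod, Module.finrank_fintype_fun_eq_card, Fintype.card_fin]
  exact h1

theorem finite_idz_pow {A : Type u} [CommRing A] [Algebra k A] [Module.Finite k A]
    (α : A →ₐ[k] k) (t : ℕ) : Module.Finite k (Idz (powH α t)) :=
  inferInstanceAs (Module.Finite k (A × (Fin t → k)))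

/-- the data of one more tail -/
theorem tail_data {B B' : Type u} [CommRing B] [Algebra k B] [CommRing B'] [Algebra k B']
    (β : B →ₐ[k] k) (β' : B' →ₐ[k] k) (mk : B →ₐ[k] B') (hmk : Function.Surjective mk)
    (hβ : ∀ b, β' (mk b) = β b) (t : ℕ) :
    ∃ (g : Idz (powH β t) →ₐ[k] Idz (powH β' (t + 1))) (η : Idz (powH β' (t + 1))),
      (∀ x, (g x).1 = mk x.1) ∧ (∀ x, (g x).2 = consL k t x.2) ∧
      (∀ x, g x * η = β x.1 • η) ∧ η * η = 0 ∧
      ∀ y, ∃ (x : Idz (powH β t)) (r : k), y = g x + r • η := by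
  let η : Idz (powH β' (t + 1)) := ((0, Fin.cases 1 (fun _ => 0)) : B' × (Fin (t + 1) → k))
  have hη1 : η.1 = 0 := rfl
  have hη20 : η.2 0 = 1 := rfl
  have hη2s : ∀ i : Fin t, η.2 i.succ = 0 := fun _ => rfl
  let g : Idz (powH β t) →ₐ[k] Idz (powH β' (t + 1)) := Idz.map mk (consL k t) (by
    intro p y
    funext i
    refine Fin.cases ?_ (fun j => ?_) i
    · rw [consL_zero, Pi.mul_apply, consL_zero, mul_zero]
    · rw [consL_succ, Pi.mul_apply, Pi.mul_apply, consL_succ, powH_apply, powH_apply, hβ])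
  have hg1 : ∀ x, (g x).1 = mk x.1 := fun _ => rfl
  have hg2 : ∀ x, (g x).2 = consL k t x.2 := fun _ => rfl
  refine ⟨g, η, hg1, hg2, ?_, ?_, ?_⟩
  · intro x
    apply Idz.ext'
    · rw [Idz.mul_fst, Idz.smul_fst, hη1, mul_zero, smul_zero]
    · rw [Idz.mul_snd, Idz.smul_snd, hη1, map_zero, zero_mul, add_zero, hg1]
      funext i
      rw [Pi.mul_apply, powH_apply, hβ, Pi.smul_apply, smul_eq_mul]
  · apply Idz.ext'
    · rw [Idz.mul_fst, hη1, mul_zero]
      rfl
    · rw [Idz.mul_snd, hη1, map_zero, zero_mul, add_zero]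
      rfl
  · intro y
    obtain ⟨b, hb⟩ := hmk y.1
    let x0 : Idz (powH β t) := ((b, fun i => y.2 i.succ) : B × (Fin t → k))
    have hx1 : x0.1 = b := rfl
    have hx2 : x0.2 = fun i => y.2 i.succ := rfl
    refine ⟨x0, y.2 0, ?_⟩
    apply Idz.ext'
    · rw [Idz.add_fst, Idz.smul_fst, hη1, smul_zero, add_zero, hg1, hx1]
      exact hb.symm
    · rw [Idz.add_snd, Idz.smul_snd, hg2, hx2]
      funext i
      refine Fin.cases ?_ (fun j => ?_) i
      · rw [Pi.add_apply, consL_zero, Pi.smul_apply, hη20, smul_eq_mul, mul_one, zero_add]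
      · rw [Pi.add_apply, consL_succ, Pi.smul_apply, hη2s, smul_zero, add_zero]

/-- evaluation at the point -/
noncomputable def evI {B : Type u} [CommRing B] [Algebra k B] (β : B →ₐ[k] k) (t : ℕ) :
    Idz (powH β t) →ₐ[k] k :=
  AlgHom.ofLinearMap
    { toFun := fun x => β x.1
      map_add' := fun x y => by rw [Idz.add_fst, map_add]
      map_smul' := fun c x => by rw [Idz.smul_fst, map_smul, RingHom.id_apply] }
    (map_one β) (fun x y => map_mul β _ _)

theorem evI_apply {B : Type u} [CommRing B] [Algebra k B] (β : B →ₐ[k] k) (t : ℕ)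
    (x : Idz (powH β t)) : evI β t x = β x.1 := rfl

theorem idz_cut {B B' : Type u} [CommRing B] [Algebra k B] [CommRing B'] [Algebra k B']
    [Module.Finite k B] [Module.Finite k B']
    (β : B →ₐ[k] k) (β' : B' →ₐ[k] k) (mk : B →ₐ[k] B') (hmk : Function.Surjective mk)
    (hβ : ∀ b, β' (mk b) = β b) (t : ℕ) (z : B) (hz0 : z ≠ 0) (hz : ∀ b, b * z = β b • z)
    (hβz : β z = 0) (hmkz : mk z = 0) (hfr : finrank k B ≤ finrank k B' + 1)
    (h : IsSmoothable k (Idz (powH β t))) : IsSmoothable k (Idz (powH β' (t + 1))) := by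
  obtain ⟨g, η, hg1, hg2, hη, hηη, hG⟩ := tail_data β β' mk hmk hβ t
  have hfin := finite_idz_pow β' (t + 1)
  let z' : Idz (powH β t) := ((z, 0) : B × (Fin t → k))
  have hz'1 : z'.1 = z := rfl
  have hz'2 : z'.2 = 0 := rfl
  refine isSmoothable_cut h (evI β t) z' ?_ hβz ?_ g ?_ η hη hηη hG ?_
  · intro h0
    exact hz0 (congrArg (fun x : Idz (powH β t) => x.1) h0)
  · intro x
    apply Idz.ext'
    · rw [Idz.mul_fst, Idz.smul_fst, hz'1, hz]
      rfl
    · rw [Idz.mul_snd, Idz.smul_snd, hz'1, hz'2, mul_zero, zero_add, smul_zero]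
      funext i
      rw [Pi.mul_apply, powH_apply, hβz, zero_mul]
      rfl
  · apply Idz.ext'
    · rw [hg1, hz'1, hmkz]
      rfl
    · rw [hg2, hz'2, map_zero]
      rfl
  · rw [finrank_idz_pow, finrank_idz_pow]
    omega

/-- Kill the kernel of `B → A`, replacing it by a trivial ideal. -/
theorem idz_kill {A : Type u} [CommRing A] [Algebra k A] [Module.Finite k A] (α : A →ₐ[k] k) :
    ∀ (s : ℕ) (B : Type u) [CommRing B] [Algebra k B] [Module.Finite k B] (π : B →ₐ[k] A)
      (_ : Function.Surjective π) (c : ℕ) (_ : RingHom.ker (α.comp π) ^ c = ⊥)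
      (_ : finrank k B = finrank k A + s) (t : ℕ),
      IsSmoothable k (Idz (powH (α.comp π) t)) → IsSmoothable k (Idz (powH α (t + s))) := by
  intro s
  induction s with
  | zero =>
    intro B _ _ _ π hπ c hc hfr t h
    have hfin := finite_idz_pow α t
    refine isSmoothable_of_dle k ?_
    rw [Nat.add_zero]
    refine ((IsSmoothable.dle h).of_surjective (Idz.map π LinearMap.id ?_)
      (Idz.map_surjective _ _ _ hπ Function.surjective_id)).mono ?_
    · intro p y
      rfl
    · rw [finrank_idz_pow, finrank_idz_pow]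
      omega
  | succ s ih =>
    intro B _ _ _ π hπ c hc hfr t h
    have hK : RingHom.ker π ≠ ⊥ := by
      intro h0
      have hinj : Function.Injective π := (RingHom.injective_iff_ker_eq_bot π).mpr h0
      have := LinearEquiv.finrank_eq (AlgEquiv.ofBijective π ⟨hinj, hπ⟩).toLinearEquiv
      omega
    obtain ⟨z, hzK, hz0, hz⟩ := exists_socle (α.comp π) hc hK
    have hfin : Module.Finite k (B ⧸ Ideal.span {z}) := Module.Finite.of_surjective
      (Ideal.Quotient.mkₐ k _).toLinearMap Ideal.Quotient.mk_surjective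
    let mk : B →ₐ[k] (B ⧸ Ideal.span {z}) := Ideal.Quotient.mkₐ k _
    have hmk : Function.Surjective mk := Ideal.Quotient.mk_surjective
    have hle : Ideal.span {z} ≤ RingHom.ker π := by
      rw [Ideal.span_singleton_le_iff_mem]; exact hzK
    let π' : (B ⧸ Ideal.span {z}) →ₐ[k] A := Ideal.Quotient.liftₐ _ π hle
    have hπmk : ∀ b, π' (mk b) = π b := fun b => Ideal.Quotient.liftₐ_apply _ _ _ _
    have hπ' : Function.Surjective π' := by
      intro a
      obtain ⟨b, rfl⟩ := hπ a
      exact ⟨mk b, hπmk b⟩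
    have hc' : RingHom.ker (α.comp π') ^ c = ⊥ := by
      have h1 : (RingHom.ker (α.comp π)).map mk = RingHom.ker (α.comp π') := by
        apply le_antisymm
        · rw [Ideal.map_le_iff_le_comap]
          intro b hb
          rw [Ideal.mem_comap, RingHom.mem_ker, AlgHom.comp_apply, hπmk]
          exact hb
        · intro x hx
          obtain ⟨b, rfl⟩ := hmk x
          refine Ideal.mem_map_of_mem _ ?_
          rw [RingHom.mem_ker, AlgHom.comp_apply, hπmk] at hx
          exact hx
      rw [← h1, ← Ideal.map_pow, hc, Ideal.map_bot]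
    have hfr1 := finrank_quotient_socle (α.comp π) hz0 hz
    have hπz : π z = 0 := hzK
    have h2 := idz_cut (α.comp π) (α.comp π') mk hmk
      (fun b => by rw [AlgHom.comp_apply, AlgHom.comp_apply, hπmk]) t z hz0 hz
      (by rw [AlgHom.comp_apply, hπz, map_zero])
      (by
        rw [Ideal.Quotient.mkₐ_eq_mk, Ideal.Quotient.eq_zero_iff_mem]
        exact Ideal.mem_span_singleton_self z) (by omega) h
    have h3 := ih (B ⧸ Ideal.span {z}) π' hπ' c hc' (by omega) (t + 1) h2
    rwa [show t + 1 + s = t + (s + 1) by ring] at h3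

/-- One more tail. -/
theorem idz_succ {A : Type u} [CommRing A] [Algebra k A] [Module.Finite k A] (α : A →ₐ[k] k)
    (t : ℕ) (h : IsSmoothable k (Idz (powH α t))) : IsSmoothable k (Idz (powH α (t + 1))) := by
  obtain ⟨g, η, hg1, hg2, hη, hηη, hG⟩ := tail_data α α (AlgHom.id k A) Function.surjective_id
    (fun _ => rfl) t
  have hfin := finite_idz_pow α (t + 1)
  refine isSmoothable_of_dle k ?_
  refine (dle_tail (IsSmoothable.dle h) (evI α t) g η hη hηη hG).mono ?_
  rw [finrank_idz_pow, finrank_idz_pow]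
  omega

/-- The tails lemma, first form. -/
theorem idz_of_dle {A : Type u} [CommRing A] [Algebra k A] [Module.Finite k A] (α : A →ₐ[k] k)
    {c : ℕ} (hα : RingHom.ker α ^ c = ⊥) {s : ℕ} (h : Dle k A (finrank k A + s)) :
    IsSmoothable k (Idz (powH α s)) := by
  obtain ⟨B₀, i1, i2, hB₀, ⟨π₀, hπ₀⟩, hfr₀⟩ := h
  obtain ⟨B, l1, l2, π, c', hB, hπ, hc', hfr⟩ := exists_local_cover_le α hα _ B₀ hB₀ rfl π₀ hπ₀
  have hfB := IsSmoothable.finite hB
  have hle : finrank k A ≤ finrank k B := LinearMap.finrank_le_finrank_of_surjective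
    (f := π.toLinearMap) hπ
  obtain ⟨s', hs'⟩ := Nat.exists_eq_add_of_le hle
  have h0 : IsSmoothable k (Idz (powH (α.comp π) 0)) := by
    have hfin := finite_idz_pow (α.comp π) 0
    refine isSmoothable_of_dle k ?_
    rw [finrank_idz_pow]
    refine (IsSmoothable.dle hB).of_surjective (AlgHom.ofLinearMap
      { toFun := fun b => ((b, 0) : B × (Fin 0 → k))
        map_add' := fun b b' => Idz.ext' rfl (Subsingleton.elim _ _)
        map_smul' := fun c b => Idz.ext' rfl (Subsingleton.elim _ _) } rfl
      (fun b b' => Idz.ext' rfl (Subsingleton.elim _ _))) ?_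
    intro x
    exact ⟨x.1, Idz.ext' rfl (Subsingleton.elim _ _)⟩
  have h1 := idz_kill α s' B π hπ c' hc' hs' 0 h0
  rw [zero_add] at h1
  obtain ⟨r, hr⟩ : ∃ r, s = s' + r := Nat.exists_eq_add_of_le (by omega)
  rw [hr]
  clear hr
  induction r with
  | zero => exact h1
  | succ r ih => exact idz_succ α _ ih

end idz

end Pool.Agent.H62.TL
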